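import Pool.Agent.Helper25_CON.Stmts

/-!
Squad CON: modules A_IND and A_REF
-/

noncomputable section

namespace Pool.Agent.CON.H50

open Pool.Agent.H25Cong Pool.Agent.CON

theorem indep7' {p : ℕ} [Fact p.Prime] {Q : Type} [AddCommGroup Q] [Module (ZMod p) Q] [Finite Q]
    (hcard : p ^ 6 < Nat.card Q) : ∃ β : Fin 7 → Q, LinearIndependent (ZMod p) β := by
  have hfr : Nat.card Q = Nat.card (ZMod p) ^ Module.finrank (ZMod p) Q :=
    Module.natCard_eq_pow_finrank
  rw [Nat.card_zmod] at hfr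
  have h7 : 7 ≤ Module.finrank (ZMod p) Q := by
    by_contra h
    have h1 : Module.finrank (ZMod p) Q ≤ 6 := by omega
    have h2 := Nat.pow_le_pow_right (Fact.out : p.Prime).pos h1
    rw [← hfr] at h2
    omega
  let β := Module.finBasis (ZMod p) Q
  exact ⟨_, β.linearIndependent.comp _ (Fin.castLE_injective h7)⟩

/-- seven independent elements of a large elementary abelian group -/
theorem indep7 {p : ℕ} (hp : p.Prime) {Q : Type} [AddCommGroup Q] (htor : ∀ q : Q, p • q = 0)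
    (hcard : p ^ 6 < Nat.card Q) :
    ∃ β : Fin 7 → Q, ∀ z : Fin 7 → ℤ, ∑ i, z i • β i = 0 → ∀ i, (p : ℤ) ∣ z i := by
  have : Fact p.Prime := ⟨hp⟩
  let inst : Module (ZMod p) Q := AddCommGroup.zmodModule htor
  have : Finite Q := by
    refine Nat.finite_of_card_ne_zero ?_
    intro h0
    rw [h0] at hcard
    exact absurd hcard (Nat.not_lt_zero _)
  obtain ⟨β, hli⟩ := indep7' hcard
  refine ⟨β, fun z hz i => ?_⟩
  have h1 : ∑ i, (z i : ZMod p) • β i = 0 := by
    rw [← hz]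
    exact Finset.sum_congr rfl fun i _ => Int.cast_smul_eq_zsmul _ _ _
  exact (ZMod.intCast_zmod_eq_zero_iff_dvd _ _).1 (Fintype.linearIndependent_iff.1 hli _ h1 i)

/-- **A_IND** -/
theorem a_IND : A_IND := by
  intro n L p hL hp hidx
  let R : AddSubgroup L.toAddSubgroup := (Rad L p).toAddSubgroup.addSubgroupOf L.toAddSubgroup
  have hmem : ∀ x : L.toAddSubgroup, x ∈ R ↔ ∀ y ∈ L, ∃ k : ℤ, B (x : V n) y = p * k := by
    intro x
    rw [AddSubgroup.mem_addSubgroupOf]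
    exact ⟨fun h => h.2, fun h => ⟨x.2, h⟩⟩
  obtain ⟨β, hβ⟩ := indep7 hp (Q := L.toAddSubgroup ⧸ R) (by
    intro q
    obtain ⟨x, rfl⟩ := QuotientAddGroup.mk_surjective q
    rw [← QuotientAddGroup.mk_nsmul, QuotientAddGroup.eq_zero_iff, hmem]
    intro y hy
    obtain ⟨k, hk⟩ := hL.int x x.2 y hy
    refine ⟨k, ?_⟩
    have h1 : ((p • x : L.toAddSubgroup) : V n) = (p : ℝ) • (x : V n) := by
      rw [AddSubgroup.coe_nsmul, Nat.cast_smul_eq_nsmul]
    rw [h1, B_smul_left, hk]) hidx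
  choose c hc using fun i : Fin 7 => QuotientAddGroup.mk_surjective (β i)
  refine ⟨fun i => (c i : V n), fun i => (c i).2, ?_⟩
  intro z hz i
  refine hβ z ?_ i
  have h3 : (QuotientAddGroup.mk' R) (∑ i, z i • c i) = ∑ i, z i • β i := by
    rw [map_sum]
    refine Finset.sum_congr rfl fun i _ => ?_
    rw [map_zsmul, QuotientAddGroup.mk'_apply, hc i]
  rw [← h3, QuotientAddGroup.mk'_apply, QuotientAddGroup.eq_zero_iff, hmem]
  intro y hy
  obtain ⟨j, hj⟩ := hz y hy
  refine ⟨j, ?_⟩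
  rw [← hj]
  congr 1
  rw [AddSubgroup.val_finsetSum]
  refine Finset.sum_congr rfl fun i _ => ?_
  rw [AddSubgroup.coe_zsmul, Int.cast_smul_eq_zsmul]

/-- **A_REF** -/
theorem a_REF : A_REF := by
  intro n L g hL hg hgL
  obtain ⟨r, hr, hgr⟩ := hg
  have hr0 : B r r ≠ 0 := hr.ne'
  -- the multiples of r in L
  have hex : ∃ x ∈ L, B x r ≠ 0 := by
    by_contra hcon
    push Not at hcon
    obtain ⟨b, hb⟩ := hL.lat
    apply hr0
    have h1 : ∀ i, B (b i) r = 0 := fun i => hcon _ (by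
      rw [hb]; exact Submodule.subset_span ⟨i, rfl⟩)
    have h2 := b.sum_repr r
    have h3 : B (∑ i, b.repr r i • b i) r = 0 := by
      rw [B_sum_left]
      refine Finset.sum_eq_zero fun i _ => ?_
      rw [B_smul_left, h1, mul_zero]
    rwa [h2] at h3
  have hline : ∃ t : ℝ, t ≠ 0 ∧ t • r ∈ L := by
    obtain ⟨x, hx, hxr⟩ := hex
    refine ⟨2 * B x r / B r r, div_ne_zero (mul_ne_zero two_ne_zero hxr) hr0, ?_⟩
    have h1 := L.sub_mem hx (hgL x hx)
    rw [hgr x] at h1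
    simpa using h1
  -- a multiple of minimal norm
  have hnorm : ∀ t : ℝ, t ≠ 0 → t • r ∈ L → ∃ m : ℕ, 0 < m ∧ B (t • r) (t • r) = m := by
    intro t ht hL1
    obtain ⟨k, hk⟩ := hL.int _ hL1 _ hL1
    have h1 : 0 < B (t • r) (t • r) := by
      rw [B_smul_left, B_smul_right]
      have := mul_self_pos.2 ht
      nlinarith
    rw [hk] at h1
    have h2 : 0 < k := by exact_mod_cast h1
    refine ⟨k.toNat, by omega, ?_⟩
    rw [hk]
    have : ((k.toNat : ℤ) : ℝ) = (k : ℝ) := by rw [Int.toNat_of_nonneg h2.le]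
    exact_mod_cast this.symm
  classical
  let P : ℕ → Prop := fun m => 0 < m ∧ ∃ t : ℝ, t ≠ 0 ∧ t • r ∈ L ∧ B (t • r) (t • r) = m
  have hP : ∃ m, P m := by
    obtain ⟨t, ht, hL1⟩ := hline
    obtain ⟨m, h1, h2⟩ := hnorm t ht hL1
    exact ⟨m, h1, t, ht, hL1, h2⟩
  obtain ⟨hm, t, ht, haL, haa⟩ := Nat.find_spec hP
  have hmin : ∀ s : ℝ, s ≠ 0 → s • r ∈ L → B (t • r) (t • r) ≤ B (s • r) (s • r) := by
    intro s hs hsL
    obtain ⟨m, h1, h2⟩ := hnorm s hs hsL
    have h3 : Nat.find hP ≤ m := Nat.find_min' hP ⟨h1, s, hs, hsL, h2⟩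
    rw [haa, h2]
    exact_mod_cast h3
  have hBt : ∀ s : ℝ, B (s • r) (s • r) = s ^ 2 * B r r := by
    intro s
    rw [B_smul_left, B_smul_right]
    ring
  -- every multiple of r in L is an integral multiple of t r
  have hgen : ∀ s : ℝ, s • r ∈ L → ∃ k : ℤ, s = k * t := by
    intro s hs
    obtain ⟨k, hk⟩ : ∃ k : ℤ, k = round (s / t) := ⟨_, rfl⟩
    refine ⟨k, ?_⟩
    by_contra hne
    have h1 : s - k * t ≠ 0 := sub_ne_zero.2 hne
    have h2 : (s - k * t) • r ∈ L := by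
      have h3 := L.sub_mem hs (L.smul_mem k haL)
      rw [← Int.cast_smul_eq_zsmul ℝ, smul_smul] at h3
      rwa [sub_smul]
    have h3 := hmin _ h1 h2
    rw [hBt, hBt] at h3
    have h4 := le_of_mul_le_mul_right h3 hr
    have h5 : |s / t - k| ≤ 1 / 2 := by rw [hk]; exact abs_sub_round _
    have h6 : s - k * t = (s / t - k) * t := by field_simp
    rw [h6, mul_pow] at h4
    have h7 : 0 < t ^ 2 := by positivity
    have h8 : (s / t - k) ^ 2 ≤ 1 / 4 := by
      have := sq_abs (s / t - k)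
      rw [← this]
      nlinarith [abs_nonneg (s / t - (k : ℝ))]
    nlinarith
  have haa0 : 0 < B (t • r) (t • r) := by rw [haa]; exact_mod_cast hm
  refine ⟨t • r, ⟨haL, haa0, ?_, ?_⟩, ?_⟩
  · intro x hx
    have h1 := L.sub_mem hx (hgL x hx)
    rw [hgr x, sub_sub_cancel] at h1
    obtain ⟨k, hk⟩ := hgen _ h1
    refine ⟨k, ?_⟩
    rw [B_smul_left, B_smul_left, B_smul_right, B_comm r x]
    have h2 : 2 * B x r = k * t * B r r := by
      rw [← hk]
      field_simp
    linear_combination t * h2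
  · intro k c hc hk
    have hk0 : (k : ℝ) ≠ 0 := by
      intro h0
      rw [h0, zero_smul] at hk
      rw [hk] at haa0
      simp at haa0
    have h1 : c = ((k : ℝ)⁻¹ * t) • r := by
      rw [mul_smul, hk, smul_smul, inv_mul_cancel₀ hk0, one_smul]
    have h2 : (k : ℝ)⁻¹ * t ≠ 0 := mul_ne_zero (inv_ne_zero hk0) ht
    rw [h1] at hc
    obtain ⟨j, hj⟩ := hgen _ hc
    have h3 : (k : ℝ) * j = 1 := by
      have h4 := mul_right_cancel₀ ht hj
      rw [← h4, mul_inv_cancel₀ hk0]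
    have h5 : (k : ℤ) * j = 1 := by exact_mod_cast h3
    have h6 : (k : ℤ) ∣ 1 := ⟨j, h5.symm⟩
    have h7 : (k : ℤ).natAbs = 1 := Int.natAbs_eq_iff.2 (by
      rcases Int.isUnit_iff.1 (isUnit_of_dvd_one h6) with h | h
      · exact Or.inl h
      · exact Or.inr h)
    simpa using h7
  · ext1 x
    rw [S_smul t ht, S_apply, hgr]

end Pool.Agent.CON.H50
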